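import Pool.Agent.Helper69.DC.Goals

/-!
DC-DIV: divisibility by the square of a linear polynomial.
-/

namespace Pool.Agent.Helper81.DC

open MvPolynomial Finset ComplexConjugate Pool.Agent.Helper69.DC

variable {m : ℕ} (β v : Fin m → ℂ)

theorem eval_xp (η : Fin m → ℂ) : eval η (xp β v) = ∑ i, (η i - β i) * conj (v i) := by
  rw [xp, map_sum]
  refine Finset.sum_congr rfl fun i _ => ?_
  simp [mul_comm]

theorem aeval_ev (η : Fin m → ℂ) (p : MvPolynomial (Fin m) ℂ) : aeval η p = eval η p := rfl

theorem dvd_of_vanish (i : Fin m) (hi : v i ≠ 0) (h : MvPolynomial (Fin m) ℂ)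
    (h0 : ∀ η : Fin m → ℂ, ∑ i, (η i - β i) * conj (v i) = 0 → eval η h = 0) : xp β v ∣ h := by
  classical
  have hci : conj (v i) ≠ 0 := by simpa using hi
  set φ : MvPolynomial (Fin m) ℂ →ₐ[ℂ] MvPolynomial (Fin m) ℂ :=
    aeval fun j => X j - if j = i then C ((conj (v i))⁻¹) * xp β v else 0 with hφ
  have h1 : φ h = 0 := by
    apply MvPolynomial.funext
    intro η
    rw [map_zero]
    set S : ℂ := ∑ k, (η k - β k) * conj (v k) with hS
    have e : (aeval η : MvPolynomial (Fin m) ℂ →ₐ[ℂ] ℂ).comp φ =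
        aeval fun j => η j - if j = i then (conj (v i))⁻¹ * S else 0 := by
      apply MvPolynomial.algHom_ext
      intro j
      rw [AlgHom.comp_apply, hφ, aeval_X, aeval_X, map_sub, aeval_X]
      split_ifs
      · rw [map_mul, aeval_C, aeval_ev, eval_xp]
        rfl
      · rw [map_zero]
    have e1 := DFunLike.congr_fun e h
    rw [AlgHom.comp_apply, aeval_ev, aeval_ev] at e1
    refine e1.trans (h0 _ ?_)
    have e2 : ∀ j, (η j - (if j = i then (conj (v i))⁻¹ * S else 0) - β j) * conj (v j) =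
        (η j - β j) * conj (v j) - if j = i then S else 0 := by
      intro j
      split_ifs with hj
      · rw [hj]
        field_simp
        ring
      · ring
    rw [Finset.sum_congr rfl fun j _ => e2 j, Finset.sum_sub_distrib, ← hS]
    simp
  have h2 : (Ideal.Quotient.mkₐ ℂ (Ideal.span {xp β v})).comp φ =
      Ideal.Quotient.mkₐ ℂ (Ideal.span {xp β v}) := by
    apply MvPolynomial.algHom_ext
    intro j
    rw [AlgHom.comp_apply, hφ, aeval_X, map_sub]
    split_ifs
    · rw [sub_eq_self, Ideal.Quotient.mkₐ_eq_mk, Ideal.Quotient.eq_zero_iff_mem]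
      exact Ideal.mul_mem_left _ _ (Ideal.mem_span_singleton_self _)
    · rw [map_zero, sub_zero]
  have h3 := DFunLike.congr_fun h2 h
  rw [AlgHom.comp_apply, h1, map_zero] at h3
  rw [← Ideal.mem_span_singleton, ← Ideal.Quotient.eq_zero_iff_mem]
  exact h3.symm

theorem g_div : G_DIV := by
  intro m β v hv h hh
  obtain ⟨i, hi⟩ := Function.ne_iff.1 hv
  have hi' : v i ≠ 0 := hi
  have hci : conj (v i) ≠ 0 := by simpa using hi'
  obtain ⟨r, hr⟩ := dvd_of_vanish β v i hi' h fun η hη => (hh η hη).1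
  have hd : pderiv i (xp β v) = C (conj (v i)) := by
    classical
    rw [xp, map_sum, Finset.sum_eq_single i]
    · simp
    · intro j _ hj
      simp [pderiv_X_of_ne hj]
    · simp
  obtain ⟨r', hr'⟩ := dvd_of_vanish β v i hi' r fun η hη => by
    have h1 := (hh η hη).2 i
    rw [hr, Derivation.leibniz, hd, smul_eq_mul, smul_eq_mul, map_add, map_mul, map_mul, eval_xp,
      hη, zero_mul, zero_add, eval_C] at h1
    exact (mul_eq_zero.1 h1).resolve_right hci
  refine ⟨r', ?_⟩
  rw [hr, hr']
  ring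

end Pool.Agent.Helper81.DC
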